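import Pool.Agent.Y394.AT.Main

/-!
# The Gyárfás–Sumner conjecture for arc-transitive graphs

For every forest `F` there is a function `f` such that `χ(G) ≤ f(ω(G))` for every finite graph `G`
without induced `F` which is arc-transitive, or amply regular (for example distance-regular or
strongly regular), or, more generally, in which the codegrees seen from an arc are the same for all
arcs.

Proof.  Let `d` be the degree and call a walk `z x w` light if `z` and `w` are not adjacent and have
less than `δ d` common neighbours.

1. If a positive proportion `λ` of the continuations `w` of an arc `z x` is light, for all arcs, and `δ`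
   is small in terms of `λ`, then `F` (which may be assumed to be a tree) is built vertex by vertex
   as an induced subgraph, by light continuations only: light walks spread, so that for each vertex
   `u` already used only few light continuations are adjacent to `u`, and the number of edges between
   the sets of candidates stays small.
2. Otherwise all but a small proportion `ε` of the continuations are heavy, for every `ε`, with a
   `δ` depending on `ε`.  The neighbourhoods have bounded Vapnik–Chervonenkis dimension, and the
   packing lemma shows, by induction on `k`, that for every vertex `u` there is a set `K` of `O(d)`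
   vertices which contains almost all neighbours of every vertex `y` at the end of a walk of length
   `k` from `u`.
3. By 2 a maximal set `Z` of vertices with pairwise far neighbourhoods has boundedly many members at
   the end of walks of length `5` from a given one.  The vertices are assigned to members of `Z` with
   almost the same neighbourhood.  Adjacent vertices have far neighbourhoods, since otherwise the
   clique number would be too large.  So a colouring of `Z` in which vertices connected by a walk of
   length `5` get different colours gives a colouring of `G`.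
-/

namespace Pool.Agent.Results.MP_763321_co.ArcTransitive

/-- Any arc can be mapped to any other arc by an automorphism. -/
def IsArcTransitive {V : Type} (G : SimpleGraph V) : Prop :=
  ∀ a b c d, G.Adj a b → G.Adj c d → ∃ φ : G ≃g G, φ a = c ∧ φ b = d

/-- The number of common neighbours. -/
noncomputable def codeg {V : Type} (G : SimpleGraph V) (u v : V) : ℕ :=
  {w | G.Adj u w ∧ G.Adj v w}.ncard

/-- Regular of degree `d`, adjacent vertices have `a` common neighbours and vertices at distance two
have `c` common neighbours. -/
def IsAmplyRegular {V : Type} (G : SimpleGraph V) (d a c : ℕ) : Prop :=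
  (∀ v, {w | G.Adj v w}.ncard = d) ∧ (∀ u v, G.Adj u v → codeg G u v = a) ∧
    ∀ u v w, u ≠ v → ¬ G.Adj u v → G.Adj u w → G.Adj v w → codeg G u v = c

/-- All arcs see the same codegrees: for adjacent `a`, `b` the number of common neighbours of `a` and
`b`, and for each `t` the number of the neighbours `w` of `b` which are different from `a`, not
adjacent to `a` and have exactly `t` common neighbours with `a`, do not depend on the arc `a b`. -/
def SameCodegrees {V : Type} (G : SimpleGraph V) : Prop :=
  ∀ a b c d, G.Adj a b → G.Adj c d → codeg G a b = codeg G c d ∧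
    ∀ t : ℕ, {w | G.Adj b w ∧ w ≠ a ∧ ¬ G.Adj a w ∧ codeg G a w = t}.ncard =
      {w | G.Adj d w ∧ w ≠ c ∧ ¬ G.Adj c w ∧ codeg G c w = t}.ncard

theorem codeg_map {V : Type} {G : SimpleGraph V} (φ : G ≃g G) (u v : V) :
    codeg G (φ u) (φ v) = codeg G u v := by
  unfold codeg
  rw [← Set.ncard_image_of_injective {w | G.Adj u w ∧ G.Adj v w} φ.injective]
  congr 1
  ext w
  simp only [Set.mem_ofPred_eq, Set.mem_image]
  constructor
  · rintro ⟨h1, h2⟩
    refine ⟨φ.symm w, ⟨?_, ?_⟩, φ.apply_symm_apply w⟩
    · rw [← φ.map_adj_iff, φ.apply_symm_apply]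
      exact h1
    · rw [← φ.map_adj_iff, φ.apply_symm_apply]
      exact h2
  · rintro ⟨x, ⟨h1, h2⟩, rfl⟩
    exact ⟨φ.map_adj_iff.2 h1, φ.map_adj_iff.2 h2⟩

theorem same_of_arcTransitive {V : Type} {G : SimpleGraph V} (h : IsArcTransitive G) :
    SameCodegrees G := by
  intro a b c d hab hcd
  obtain ⟨φ, rfl, rfl⟩ := h a b c d hab hcd
  refine ⟨(codeg_map φ a b).symm, ?_⟩
  intro t
  rw [← Set.ncard_image_of_injective
    {w | G.Adj b w ∧ w ≠ a ∧ ¬ G.Adj a w ∧ codeg G a w = t} φ.injective]
  congr 1
  ext w
  simp only [Set.mem_ofPred_eq, Set.mem_image]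
  constructor
  · rintro ⟨x, ⟨h1, h2, h3, h4⟩, rfl⟩
    refine ⟨φ.map_adj_iff.2 h1, fun h => h2 (φ.injective h), fun h => h3 (φ.map_adj_iff.1 h), ?_⟩
    rw [codeg_map]
    exact h4
  · rintro ⟨h1, h2, h3, h4⟩
    refine ⟨φ.symm w, ⟨?_, ?_, ?_, ?_⟩, φ.apply_symm_apply w⟩
    · rw [← φ.map_adj_iff, φ.apply_symm_apply]
      exact h1
    · intro h
      apply h2
      rw [← h, φ.apply_symm_apply]
    · intro h
      apply h3
      rw [← φ.map_adj_iff, φ.apply_symm_apply] at h
      exact h
    · rw [← codeg_map φ, φ.apply_symm_apply]
      exact h4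

theorem same_of_amplyRegular {V : Type} [Finite V] {G : SimpleGraph V} {d a c : ℕ}
    (h : IsAmplyRegular G d a c) : SameCodegrees G := by
  obtain ⟨h1, h2, h3⟩ := h
  have key : ∀ x y, G.Adj x y → ∀ t : ℕ,
      {w | G.Adj y w ∧ w ≠ x ∧ ¬ G.Adj x w ∧ codeg G x w = t}.ncard =
        if t = c then d - 1 - a else 0 := by
    intro x y hxy t
    by_cases ht : t = c
    · rw [if_pos ht]
      have e1 : {w | G.Adj y w ∧ w ≠ x ∧ ¬ G.Adj x w ∧ codeg G x w = t} =
          {w | G.Adj y w} \ insert x {w | G.Adj x w ∧ G.Adj y w} := by
        ext w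
        simp only [Set.mem_ofPred_eq, Set.mem_sdiff, Set.mem_insert_iff, not_or]
        constructor
        · rintro ⟨h4, h5, h6, _⟩
          exact ⟨h4, h5, fun h => h6 h.1⟩
        · rintro ⟨h4, h5, h6⟩
          have h7 : ¬ G.Adj x w := fun h => h6 ⟨h, h4⟩
          exact ⟨h4, h5, h7, by rw [ht]; exact h3 x w y (Ne.symm h5) h7 hxy h4.symm⟩
      have e2 : insert x {w | G.Adj x w ∧ G.Adj y w} ⊆ {w | G.Adj y w} := by
        intro w hw
        rcases hw with rfl | hw
        · exact hxy.symm
        · exact hw.2
      rw [e1, Set.ncard_sdiff e2, h1,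
        Set.ncard_insert_of_notMem (fun h => G.loopless.irrefl _ h.1)]
      have e3 : {w | G.Adj x w ∧ G.Adj y w}.ncard = a := h2 x y hxy
      omega
    · rw [if_neg ht]
      have e1 : {w | G.Adj y w ∧ w ≠ x ∧ ¬ G.Adj x w ∧ codeg G x w = t} = ∅ := by
        rw [Set.eq_empty_iff_forall_notMem]
        rintro w ⟨h4, h5, h6, h7⟩
        exact ht (h7.symm.trans (h3 x w y (Ne.symm h5) h6 hxy h4.symm))
      rw [e1, Set.ncard_empty]
  intro x y x' y' hxy hxy'
  exact ⟨(h2 x y hxy).trans (h2 x' y' hxy').symm, fun t =>
    (key x y hxy t).trans (key x' y' hxy' t).symm⟩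

open Pool.Agent.Y394.AT in
theorem unif_of_same {V : Type} [Fintype V] {G : SimpleGraph V} (h : SameCodegrees G) :
    Unif G := by
  classical
  have hcd : ∀ u v, codeg G u v = cd G u v := by
    intro u v
    unfold codeg cd
    rw [← Set.ncard_coe_finset]
    congr 1
    ext w
    simp
  have hlc : ∀ t a b a' b', G.Adj a b → G.Adj a' b' →
      (lc G t a b).card = (lc G t a' b').card := by
    intro t
    induction t with
    | zero =>
      intro a b a' b' _ _
      unfold lc
      simp
    | succ t ih =>
      intro a b a' b' hab hab'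
      have hstep : ∀ x y, (lc G (t + 1) x y).card = (lc G t x y).card +
          {w | G.Adj y w ∧ w ≠ x ∧ ¬ G.Adj x w ∧ codeg G x w = t}.ncard := by
        intro x y
        have e1 : {w | G.Adj y w ∧ w ≠ x ∧ ¬ G.Adj x w ∧ codeg G x w = t} =
            (((nb G y).filter (fun w => w ≠ x ∧ ¬ G.Adj x w ∧ cd G x w = t) : Finset V) :
              Set V) := by
          ext w
          simp only [Set.mem_ofPred_eq, Finset.coe_filter, mem_nb, hcd]
        rw [e1, Set.ncard_coe_finset, ← Finset.card_union_of_disjoint]
        · congr 1
          unfold lc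
          ext w
          rw [Finset.mem_union, Finset.mem_filter, Finset.mem_filter, Finset.mem_filter]
          constructor
          · rintro ⟨h1, h2, h3, h4⟩
            rcases Nat.lt_succ_iff_lt_or_eq.1 h4 with h5 | h5
            · exact Or.inl ⟨h1, h2, h3, h5⟩
            · exact Or.inr ⟨h1, h2, h3, h5⟩
          · rintro (⟨h1, h2, h3, h4⟩ | ⟨h1, h2, h3, h4⟩)
            · exact ⟨h1, h2, h3, by omega⟩
            · exact ⟨h1, h2, h3, by omega⟩
        · rw [Finset.disjoint_left]
          intro w hw hw'
          unfold lc at hw
          have h4 := (Finset.mem_filter.1 hw).2.2.2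
          have h5 := (Finset.mem_filter.1 hw').2.2.2
          omega
      rw [hstep a b, hstep a' b', ih a b a' b' hab hab', (h a b a' b' hab hab').2 t]
  intro a b a' b' hab hab'
  have hc : cd G a b = cd G a' b' := by
    rw [← hcd, ← hcd]
    exact (h a b a' b' hab hab').1
  refine ⟨?_, hc, fun t => hlc t a b a' b' hab hab'⟩
  have hnb : ∀ x y, G.Adj x y → (nb G y).card =
      1 + cd G x y + (lc G (Fintype.card V + 1) x y).card := by
    intro x y hxy
    have e1 : nb G y = ({x} ∪ (Finset.univ.filter (fun w => G.Adj x w ∧ G.Adj y w))) ∪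
        lc G (Fintype.card V + 1) x y := by
      unfold lc
      ext w
      rw [Finset.mem_union, Finset.mem_union, Finset.mem_singleton, Finset.mem_filter,
        Finset.mem_filter, mem_nb]
      constructor
      · intro hw
        by_cases hwx : w = x
        · exact Or.inl (Or.inl hwx)
        · by_cases hxw : G.Adj x w
          · exact Or.inl (Or.inr ⟨Finset.mem_univ _, hxw, hw⟩)
          · refine Or.inr ⟨hw, hwx, hxw, ?_⟩
            refine Nat.lt_succ_of_le ?_
            unfold cd
            exact Finset.card_le_univ _
      · rintro ((rfl | ⟨_, _, hw⟩) | ⟨hw, _⟩)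
        · exact hxy.symm
        · exact hw
        · exact hw
    have e2 : Disjoint ({x} : Finset V) (Finset.univ.filter (fun w => G.Adj x w ∧ G.Adj y w)) := by
      rw [Finset.disjoint_singleton_left, Finset.mem_filter]
      rintro ⟨_, h1, _⟩
      exact G.loopless.irrefl _ h1
    have e3 : Disjoint ({x} ∪ (Finset.univ.filter (fun w => G.Adj x w ∧ G.Adj y w)))
        (lc G (Fintype.card V + 1) x y) := by
      rw [Finset.disjoint_left]
      intro w hw hw'
      unfold lc at hw'
      obtain ⟨_, h1, h2, _⟩ := Finset.mem_filter.1 hw'
      rcases Finset.mem_union.1 hw with hw | hw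
      · exact h1 (Finset.mem_singleton.1 hw)
      · exact h2 (Finset.mem_filter.1 hw).2.1
    rw [e1, Finset.card_union_of_disjoint e3, Finset.card_union_of_disjoint e2,
      Finset.card_singleton]
    rfl
  rw [hnb a b hab, hnb a' b' hab', hc, hlc _ a b a' b' hab hab']

theorem result (m : ℕ) (F : SimpleGraph (Fin m)) (hF : F.IsAcyclic) :
    ∃ f : ℕ → ℕ, ∀ (V : Type) [Finite V] (G : SimpleGraph V),
      (IsArcTransitive G ∨ (∃ d a c, IsAmplyRegular G d a c) ∨ SameCodegrees G) →
      ¬ F.IsIndContained G → G.chromaticNumber ≤ f G.cliqueNum := by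
  choose! C hC using fun k => Pool.Agent.Y394.AT.exists_color m F hF k
  refine ⟨fun k => C (max k 1), ?_⟩
  intro V _ G h hFG
  have : Fintype V := Fintype.ofFinite V
  have hsame : SameCodegrees G := by
    rcases h with h | ⟨d, a, c, h⟩ | h
    · exact same_of_arcTransitive h
    · exact same_of_amplyRegular h
    · exact h
  have hcl : G.CliqueFree (max G.cliqueNum 1 + 1) := by
    intro s hs
    have h1 := hs.isClique.card_le_cliqueNum
    rw [hs.card_eq] at h1
    have h2 := le_max_left G.cliqueNum 1
    omega
  exact (hC (max G.cliqueNum 1) (le_max_right _ _) V G (unif_of_same hsame) hcl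
    ⟨fun e => hFG ⟨e⟩⟩).chromaticNumber_le

end Pool.Agent.Results.MP_763321_co.ArcTransitive
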