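import Pool.Agent.TH346.LG.Tri

/-!
# Gyárfás–Sumner for graphs of bounded local growth

All graphs are finite.  `w` is a nonnegative weight on the vertices of `G` (for example `w = 1`).  A
clique is *maximal* if no vertex is adjacent to all of its members.  For a maximal clique `Q` and
`v ∈ Q` the *exchange weight* of `v` in `Q` is the total weight of the vertices which are adjacent to
all members of `Q` other than `v`.  An edge `u v` is *locally* `ε`-*rich* if for some maximal clique
`Q` containing `u` and `v` the exchange weight of `v` in `Q` is positive and at least `ε` times the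
weight of the ball of radius `6` about `u`, or the same with `u` and `v` exchanged.  Edges that are
rich in the sense of the file `RichEdges` of the starting files (there the weights are compared with
the total weight of the graph) are locally rich; here the weights are only compared with the weights
of balls, so that bounded degree graphs, disjoint unions and graphs on scattered pieces of very
different sizes are all allowed.

1. For every bipartite `F`, all `k` and `ε > 0` there is `C` such that in every graph without induced
   `F` and without clique of size `k + 1`, for every nonnegative weight, the locally `ε`-rich edges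
   form a graph of chromatic number at most `C`.
2. For every forest `F`, all `k`, `n` and `ε > 0` there is `C` such that `χ(G) ≤ C` for every graph `G`
   without induced `F` and without clique of size `k + 1` which has a nonnegative weight such that
   every half-graph of order `n` in `G` contains a locally `ε`-rich edge of `G`.
3. For every bipartite `F` and all `K` there is `C` such that `χ(G) ≤ C` for every triangle-free graph
   `G` without induced `F` in which every edge has an end `u` for which the ball of radius `6` about
   `u` has at most `K deg u` vertices.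
4. For every forest `F`, all `n` and `K` there is `C` such that `χ(G) ≤ C` for every triangle-free
   graph `G` without induced `F` in which every half-graph of order `n` contains a vertex `u` for
   which the ball of radius `6` about `u` has at most `K deg u` vertices.
5. For every bipartite `F` and all `K` there is `C` such that `χ(G) ≤ C` for every triangle-free
   Cayley graph `G` without induced `F` of an arbitrary finite group with a symmetric generating set
   `A` of small tripling, `|A ^ 3| ≤ K |A|`.

Idea.  Take a maximal family of vertices with large neighbourhoods (compared with the ball of radius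
`6`) that are pairwise disjoint.  Every vertex with a large neighbourhood is at distance at most `2`
from a member of the family; around each member the theorem for the total weight is applied to the
restriction of the weight to the ball of radius `3`, and the members of the family are coloured
greedily, since few of them are at distance at most `5` from a given one.
-/

set_option autoImplicit false

namespace Pool.Agent.Results.MP_763321_co.LocalGrowth

/-- `Q` is a clique and no vertex is adjacent to all members of `Q`. -/
def MaxClique {V : Type} (G : SimpleGraph V) (Q : Finset V) : Prop :=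
  G.IsClique (Q : Set V) ∧ ∀ z, ∃ q ∈ Q, ¬ G.Adj q z

open Classical in
/-- The total weight of the vertices which are adjacent to all members of `Q` other than `v`. -/
noncomputable def exchangeWeight {V : Type} [Fintype V] (G : SimpleGraph V) (w : V → ℝ)
    (Q : Finset V) (v : V) : ℝ :=
  ∑ z, if (∀ q ∈ Q, q ≠ v → G.Adj q z) then w z else 0

open Classical in
/-- The total weight of the ball of radius `r` about `u`. -/
noncomputable def ballWeight {V : Type} [Fintype V] (G : SimpleGraph V) (w : V → ℝ) (r : ℕ)
    (u : V) : ℝ :=
  ∑ z, if G.edist u z ≤ (r : ℕ∞) then w z else 0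

/-- The maximal clique `Q` makes the edge `u v` rich at `v`: the exchange weight of `v` in `Q` is
positive and at least `ε` times the weight of the ball of radius `6` about `u`. -/
def RichIn {V : Type} [Fintype V] (G : SimpleGraph V) (w : V → ℝ) (ε : ℝ) (Q : Finset V)
    (u v : V) : Prop :=
  0 < exchangeWeight G w Q v ∧ ε * ballWeight G w 6 u ≤ exchangeWeight G w Q v

/-- The edge `u v` is locally `ε`-rich. -/
def LocallyRich {V : Type} [Fintype V] (G : SimpleGraph V) (w : V → ℝ) (ε : ℝ) (u v : V) : Prop :=
  G.Adj u v ∧ ∃ Q : Finset V, MaxClique G Q ∧ u ∈ Q ∧ v ∈ Q ∧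
    (RichIn G w ε Q u v ∨ RichIn G w ε Q v u)

/-- `a`, `b` form a half-graph: `a i` is adjacent to `b j` if and only if `i ≤ j`. -/
def IsHalfGraph {V : Type} (G : SimpleGraph V) {n : ℕ} (a b : Fin n → V) : Prop :=
  ∀ i j, G.Adj (a i) (b j) ↔ i ≤ j

/-- The ball of radius `6` about `u` has at most `K deg u` vertices. -/
def SlowAt {V : Type} [Fintype V] (G : SimpleGraph V) (K : ℝ) (u : V) : Prop :=
  (({z | G.edist u z ≤ 6} : Set V).ncard : ℝ) ≤ K * (G.neighborSet u).ncard

open scoped Pointwise

theorem result :
    -- 1. bipartite graphs, locally rich edges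
    (∀ (m : ℕ) (F : SimpleGraph (Fin m)), F.IsBipartite → ∀ (k : ℕ) (ε : ℝ), 0 < ε →
      ∃ C : ℕ, ∀ (V : Type) [Fintype V] (G : SimpleGraph V) (w : V → ℝ), (∀ v, 0 ≤ w v) →
        G.CliqueFree (k + 1) → ¬ F.IsIndContained G →
        ∃ c : V → Fin C, ∀ u v, LocallyRich G w ε u v → c u ≠ c v) ∧
    -- 2. forests, half-graphs with a locally rich edge
    (∀ (m : ℕ) (F : SimpleGraph (Fin m)), F.IsAcyclic → ∀ (k n : ℕ) (ε : ℝ), 0 < ε →
      ∃ C : ℕ, ∀ (V : Type) [Fintype V] (G : SimpleGraph V) (w : V → ℝ), (∀ v, 0 ≤ w v) →
        G.CliqueFree (k + 1) → ¬ F.IsIndContained G →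
        (∀ a b : Fin n → V, IsHalfGraph G a b → ∃ u v, (u ∈ Set.range a ∨ u ∈ Set.range b) ∧
          (v ∈ Set.range a ∨ v ∈ Set.range b) ∧ LocallyRich G w ε u v) →
        G.Colorable C) ∧
    -- 3. triangle-free graphs of bounded local growth, bipartite graphs
    (∀ (m : ℕ) (F : SimpleGraph (Fin m)), F.IsBipartite → ∀ K : ℝ,
      ∃ C : ℕ, ∀ (V : Type) [Fintype V] (G : SimpleGraph V), G.CliqueFree 3 →
        ¬ F.IsIndContained G → (∀ u v, G.Adj u v → SlowAt G K u ∨ SlowAt G K v) →
        G.Colorable C) ∧
    -- 4. triangle-free graphs, forests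
    (∀ (m : ℕ) (F : SimpleGraph (Fin m)), F.IsAcyclic → ∀ (n : ℕ) (K : ℝ),
      ∃ C : ℕ, ∀ (V : Type) [Fintype V] (G : SimpleGraph V), G.CliqueFree 3 →
        ¬ F.IsIndContained G →
        (∀ a b : Fin n → V, IsHalfGraph G a b →
          ∃ u, (u ∈ Set.range a ∨ u ∈ Set.range b) ∧ SlowAt G K u) →
        G.Colorable C) ∧
    -- 5. triangle-free Cayley graphs of small tripling of arbitrary finite groups
    (∀ (m : ℕ) (F : SimpleGraph (Fin m)), F.IsBipartite → ∀ K : ℝ,
      ∃ C : ℕ, ∀ (Γ : Type) [Group Γ] [Fintype Γ] [DecidableEq Γ] (A : Finset Γ), A⁻¹ = A →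
        ((A ^ 3).card : ℝ) ≤ K * A.card →
        (SimpleGraph.mulCayley (A : Set Γ)).CliqueFree 3 →
        ¬ F.IsIndContained (SimpleGraph.mulCayley (A : Set Γ)) →
        (SimpleGraph.mulCayley (A : Set Γ)).Colorable C) := by
  refine ⟨?_, ?_, ?_, ?_, ?_⟩
  · intro m F hF k ε hε
    obtain ⟨C, hC⟩ := Pool.Agent.TH346.LG.local_main F hF k ε hε
    refine ⟨C, ?_⟩
    intro V _ G w hw hfree hind
    obtain ⟨c, hc⟩ := hC V G w hw hfree ⟨fun f => hind ⟨f⟩⟩
    refine ⟨c, ?_⟩
    rintro u v ⟨huv, Q, hQ, hu, hv, h⟩ huc
    rcases h with ⟨h1, h2⟩ | ⟨h1, h2⟩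
    · have h3 := hc u v huv huc Q hQ.1 hQ.2 hu hv h1
      have h4 : exchangeWeight G w Q v < ε * ballWeight G w 6 u := h3
      linarith
    · have h3 := hc v u huv.symm huc.symm Q hQ.1 hQ.2 hv hu h1
      have h4 : exchangeWeight G w Q u < ε * ballWeight G w 6 v := h3
      linarith
  · intro m F hF k n ε hε
    obtain ⟨C, hC⟩ := Pool.Agent.TH346.LG.local_comb F hF k n ε hε
    refine ⟨C, ?_⟩
    intro V _ G w hw hfree hind hhalf
    refine hC V G w hw hfree ⟨fun f => hind ⟨f⟩⟩ ?_
    intro a b hab
    obtain ⟨u, v, hu, hv, huv, Q, hQ, huQ, hvQ, h⟩ := hhalf a b hab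
    rcases h with h | h
    · exact ⟨u, v, hu, hv, huv, Q, hQ.1, hQ.2, huQ, hvQ, h.1, h.2⟩
    · exact ⟨v, u, hv, hu, huv.symm, Q, hQ.1, hQ.2, hvQ, huQ, h.1, h.2⟩
  · intro m F hF K
    obtain ⟨C, hC⟩ := Pool.Agent.TH346.LG.tri_main F hF K
    exact ⟨C, fun V _ G h3 hind hg => hC V G h3 ⟨fun f => hind ⟨f⟩⟩ hg⟩
  · intro m F hF n K
    obtain ⟨C, hC⟩ := Pool.Agent.TH346.LG.tri_comb F hF n K
    exact ⟨C, fun V _ G h3 hind hg => hC V G h3 ⟨fun f => hind ⟨f⟩⟩ hg⟩
  · intro m F hF K
    obtain ⟨C, hC⟩ := Pool.Agent.TH346.LG.cay_main F hF K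
    exact ⟨C, fun Γ _ _ _ A hA hK h3 hind => hC Γ A hA hK h3 ⟨fun f => hind ⟨f⟩⟩⟩

end Pool.Agent.Results.MP_763321_co.LocalGrowth
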