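import Pool.Agent.Y395.GX.Asm

set_option autoImplicit false

/-!
# The Gyárfás–Sumner conjecture for typical spanning subgraphs of arbitrary graphs

Let `G` be an arbitrary finite graph and let `H` be a random spanning subgraph of `G`.

* If `G` is not `k`-colourable then every forest `T` with `f` vertices, `f q + 1 ≤ k`, is an induced
  subgraph of the random spanning subgraph `G_p` with probability at least
  `1 - f (1 - p (1 - p) ^ f) ^ q`, for every `p` in `[0, 1]`.
* There is an absolute constant `k₀` such that for all `k ≥ k₀` and for every graph `G` which is not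
  `k`-colourable, all but a proportion `exp (-√k)` of the spanning subgraphs of `G` contain all
  forests with at most `log₈ k` vertices as induced subgraphs.
* So for every forest `T` and every `k ≥ max (k₀, 8 ^ |T|)`, for every graph `G` whatsoever, all but a
  proportion `exp (-√k)` of the spanning subgraphs of `G` contain `T` as an induced subgraph or are
  `k`-colourable.
* More generally let `H₀` and `G` be arbitrary graphs on the same set, `H₀` being `c`-colourable, and
  flip a random set of pairs which are edges of `G` in `H₀`. For all but a proportion `exp (-√k)` of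
  the spanning subgraphs `F` of `G` the perturbed graph `H₀ ∆ F` contains all forests with at most
  `log₈ k` vertices as induced subgraphs or is `c k`-colourable.

The chromatic number of `G` cannot be replaced here by the clique number and the order `log k` is the
right one (take for `G` a complete graph).

Proof. Let `W` be a set of vertices inducing a subgraph of minimum degree at least `k` in `G`. The
forest is embedded vertex by vertex (in an order in which each vertex has at most one earlier
neighbour). In each step the part built so far lies in a set `U` of at most `1 + (i - 1) q` vertices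
and only the edges inside `U` have been exposed; one takes `q` new neighbours in `W` of the vertex
which is to be extended; the edges between the `i` vertices of the copy and the `q` candidates are
independent, and each candidate is good with probability at least `p (1 - p) ^ f`. All forests are
treated at the same time, by a union bound over at most `f ^ f` ordered forests. For perturbations
one works in a colour class of `H₀`.
-/

namespace Pool.Agent.Results.MP_763321_co.RandomSubgraphs

open scoped Classical in
/-- The probability that the random spanning subgraph `G_p` of `G` (each edge of `G` is kept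
independently with probability `p`) does not have the property `P`. -/
noncomputable def failProb {V : Type} [Fintype V] (p : ℝ) (G : SimpleGraph V)
    (P : SimpleGraph V → Prop) : ℝ :=
  ∑ F ∈ G.edgeFinset.powerset, p ^ F.card * (1 - p) ^ (G.edgeFinset.card - F.card) *
    (if P (SimpleGraph.fromEdgeSet (F : Set (Sym2 V))) then 0 else 1)

/-- All but a proportion `ε` of the spanning subgraphs `H` of `G` have the property `P`. -/
def AllBut {V : Type} (ε : ℝ) (G : SimpleGraph V) (P : SimpleGraph V → Prop) : Prop :=
  ({H : SimpleGraph V | H ≤ G ∧ ¬ P H}.ncard : ℝ) ≤ ε * ({H : SimpleGraph V | H ≤ G}.ncard : ℝ)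

theorem result :
    -- arbitrary edge probabilities
    (∀ (V : Type) [Fintype V] (G : SimpleGraph V) (k : ℕ), ¬ G.Colorable k →
      ∀ (f q : ℕ) (T : SimpleGraph (Fin f)), T.IsAcyclic → f * q + 1 ≤ k →
      ∀ p : ℝ, 0 ≤ p → p ≤ 1 →
      failProb p G (fun H => T.IsIndContained H) ≤ (f : ℝ) * (1 - p * (1 - p) ^ f) ^ q) ∧
    ∃ k₀ : ℕ, ∀ k : ℕ, k₀ ≤ k → ∀ (V : Type) [Fintype V] (G : SimpleGraph V),
      -- all small forests simultaneously
      (¬ G.Colorable k → AllBut (Real.exp (-√(k : ℝ))) G (fun H =>
        ∀ (m : ℕ) (T : SimpleGraph (Fin m)), 8 ^ m ≤ k → T.IsAcyclic → T.IsIndContained H)) ∧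
      -- the conjecture for typical spanning subgraphs of arbitrary graphs
      (∀ (m : ℕ) (T : SimpleGraph (Fin m)), 8 ^ m ≤ k → T.IsAcyclic →
        AllBut (Real.exp (-√(k : ℝ))) G (fun H => T.IsIndContained H ∨ H.Colorable k)) ∧
      -- random perturbations of arbitrary graphs along arbitrary graphs
      (∀ (H₀ : SimpleGraph V) (c : ℕ), H₀.Colorable c →
        AllBut (Real.exp (-√(k : ℝ))) G (fun F =>
          (∀ (m : ℕ) (T : SimpleGraph (Fin m)), 8 ^ m ≤ k → T.IsAcyclic →
            T.IsIndContained (symmDiff H₀ F)) ∨ (symmDiff H₀ F).Colorable (c * k))) := by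
  refine ⟨?_, ?_⟩
  · intro V _ G k hG f q T hT hq p h0 h1
    have h := Pool.Agent.Y395.GX.forest_bound Pool.Agent.Y395.GX.smain Pool.Agent.Y395.GX.deg
      G k f q hG hq T hT p h0 h1
    unfold Pool.Agent.Y395.GX.Ex Pool.Agent.Y395.GX.ed Pool.Agent.Y395.GX.gr at h
    unfold failProb
    convert h
  · obtain ⟨k₀, h⟩ := Pool.Agent.Y395.GX.typical' Pool.Agent.Y395.GX.smain
      Pool.Agent.Y395.GX.deg Pool.Agent.Y395.GX.calc' Pool.Agent.Y395.GX.all'
    refine ⟨k₀, fun k hk V _ G => ⟨(h k hk V G).1, (h k hk V G).2, fun H₀ c hc => ?_⟩⟩
    exact Pool.Agent.Y395.GX.perturb k c H₀ G hc fun V' _ G' => (h k hk V' G').1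

end Pool.Agent.Results.MP_763321_co.RandomSubgraphs
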